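import Mathlib

/-!
# Deterministic part of the regularity of the Brownian span set
-/

open Set Filter Topology

namespace Pool.Agent.Q210.SP

noncomputable section

/-- The span set of a real path on `[0,1]`. -/
def SpR (g : ℝ → ℝ) : Set ℝ := {u | 0 ≤ u ∧ ∃ s, 0 ≤ s ∧ s + u ≤ 1 ∧ g (s + u) = g s}

/-- Supremum over `[p,q]` (over the points `max p (min x q)` with `x` rational). -/
def Ms (g : ℝ → ℝ) (p q : ℝ) : ℝ := ⨆ x : ℚ, g (max p (min (x : ℝ) q))

/-- Infimum over `[p,q]`. -/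
def mI (g : ℝ → ℝ) (p q : ℝ) : ℝ := - Ms (-g) p q

theorem clamp_mem {p q : ℝ} (h : p ≤ q) (x : ℝ) : max p (min x q) ∈ Icc p q :=
  ⟨le_max_left _ _, max_le h (min_le_right _ _)⟩

theorem Ms_eq {g : ℝ → ℝ} (hg : Continuous g) {p q s c : ℝ} (hs : s ∈ Icc p q)
    (hle : ∀ t ∈ Icc p q, g t ≤ c) (hc : g s = c) : Ms g p q = c := by
  have hpq : p ≤ q := hs.1.trans hs.2
  have hbd : BddAbove (range fun x : ℚ => g (max p (min (x : ℝ) q))) :=
    ⟨c, by rintro _ ⟨x, rfl⟩; exact hle _ (clamp_mem hpq x)⟩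
  refine le_antisymm (ciSup_le fun x => hle _ (clamp_mem hpq x)) ?_
  have h1 : ∀ x : ℝ, g (max p (min x q)) ≤ Ms g p q := by
    intro x
    have hcl : IsClosed {x : ℝ | g (max p (min x q)) ≤ Ms g p q} :=
      isClosed_le (by fun_prop) continuous_const
    have hsub : range ((↑) : ℚ → ℝ) ⊆ {x : ℝ | g (max p (min x q)) ≤ Ms g p q} := by
      rintro _ ⟨y, rfl⟩
      exact le_ciSup hbd y
    have := hcl.closure_subset_iff.mpr hsub
    rw [Rat.denseRange_cast.closure_range] at this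
    exact this (mem_univ x)
  have h2 := h1 s
  rw [min_eq_left hs.2, max_eq_right hs.1, hc] at h2
  exact h2

theorem mI_neg (g : ℝ → ℝ) (p q : ℝ) : mI (-g) p q = - Ms g p q := by
  unfold mI
  rw [neg_neg]

theorem Ms_neg (g : ℝ → ℝ) (p q : ℝ) : Ms (-g) p q = - mI g p q := by
  unfold mI
  rw [neg_neg]

theorem mI_eq {g : ℝ → ℝ} (hg : Continuous g) {p q s c : ℝ} (hs : s ∈ Icc p q)
    (hle : ∀ t ∈ Icc p q, c ≤ g t) (hc : g s = c) : mI g p q = c := by
  have h := Ms_eq (g := -g) hg.neg (c := -c) hs (fun t ht => neg_le_neg (hle t ht)) (by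
    simp [hc])
  rw [Ms_neg] at h
  linarith

/-- Almost sure properties of Brownian paths used below. -/
structure Half (g : ℝ → ℝ) : Prop where
  h1 : ∀ p q r s : ℚ, 0 < p → p < q → q < r → r < s → s < 1 → Ms g p q ≠ mI g r s
  h1' : ∀ p q r s : ℚ, 0 < p → p < q → q < r → r < s → s < 1 → Ms g p q ≠ Ms g r s
  h2 : ∀ r s : ℚ, 0 < r → r < s → s < 1 → mI g r s ≠ 0
  h3 : ∀ p q : ℚ, 0 < p → p < q → q < 1 → Ms g p q ≠ g 1
  h4 : g 1 ≠ 0
  h5 : ∀ p q : ℚ, 0 < p → p < q → q < 1 → ¬ StrictMonoOn g (Icc (p : ℝ) q)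

theorem no_touch {g : ℝ → ℝ} (hg : Continuous g) (hH : Half g) (g0 : g 0 = 0) {u δ s0 : ℝ}
    (hδ : 0 < δ) (hs0 : 0 ≤ s0) (hs1 : s0 + u ≤ 1) (hu0 : 0 < u)
    (heq : g (s0 + u) = g s0)
    (hpos : ∀ u', |u' - u| < δ → ∀ s, 0 ≤ s → s + u' ≤ 1 → g s ≤ g (s + u')) : False := by
  -- `g ≥ g s0` near `s0 + u` and `g ≤ g s0` near `s0`
  have ht : ∀ t, |t - (s0 + u)| < δ → t ≤ 1 → g s0 ≤ g t := by
    intro t ht ht1
    have := hpos (t - s0) (by rw [show t - s0 - u = t - (s0 + u) by ring]; exact ht) s0 hs0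
      (by linarith)
    rwa [show s0 + (t - s0) = t by ring] at this
  have hs : ∀ s, |s - s0| < δ → 0 ≤ s → g s ≤ g s0 := by
    intro s hs hs'
    have h := hpos (s0 + u - s) (by
      rw [show s0 + u - s - u = -(s - s0) by ring, abs_neg]; exact hs) s hs' (by linarith)
    rwa [show s + (s0 + u - s) = s0 + u by ring, heq] at h
  have keyS : 0 < s0 → ∀ b, s0 < b → ∃ p q : ℚ, (0 : ℚ) < p ∧ p < q ∧ (q : ℝ) < b ∧
      Ms g p q = g s0 := by
    intro h0 b hb
    obtain ⟨p, hp1, hp2⟩ := exists_rat_btwn (show max 0 (s0 - δ) < s0 from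
      max_lt h0 (by linarith))
    obtain ⟨q, hq1, hq2⟩ := exists_rat_btwn (show s0 < min b (s0 + δ) from
      lt_min hb (by linarith))
    have hp0 : (0 : ℝ) < p := lt_of_le_of_lt (le_max_left _ _) hp1
    have hpδ : s0 - δ < p := lt_of_le_of_lt (le_max_right _ _) hp1
    have hqb : (q : ℝ) < b := lt_of_lt_of_le hq2 (min_le_left _ _)
    have hqδ : (q : ℝ) < s0 + δ := lt_of_lt_of_le hq2 (min_le_right _ _)
    refine ⟨p, q, by exact_mod_cast hp0, by exact_mod_cast hp2.trans hq1, hqb, ?_⟩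
    refine Ms_eq hg ⟨hp2.le, hq1.le⟩ (fun t ht' => hs t ?_ (hp0.le.trans ht'.1)) rfl
    rw [abs_lt]
    constructor <;> linarith [ht'.1, ht'.2]
  have keyT : s0 + u < 1 → ∀ a, a < s0 + u → ∃ r s : ℚ, a < (r : ℝ) ∧ r < s ∧ s < 1 ∧
      mI g r s = g s0 := by
    intro h1 a ha
    obtain ⟨r, hr1, hr2⟩ := exists_rat_btwn (show max a (s0 + u - δ) < s0 + u from
      max_lt ha (by linarith))
    obtain ⟨s, hs1, hs2⟩ := exists_rat_btwn (show s0 + u < min 1 (s0 + u + δ) from
      lt_min h1 (by linarith))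
    have hra : a < r := lt_of_le_of_lt (le_max_left _ _) hr1
    have hrδ : s0 + u - δ < r := lt_of_le_of_lt (le_max_right _ _) hr1
    have hs11 : (s : ℝ) < 1 := lt_of_lt_of_le hs2 (min_le_left _ _)
    have hsδ : (s : ℝ) < s0 + u + δ := lt_of_lt_of_le hs2 (min_le_right _ _)
    refine ⟨r, s, hra, by exact_mod_cast hr2.trans hs1, by exact_mod_cast hs11, ?_⟩
    refine mI_eq hg ⟨hr2.le, hs1.le⟩ (fun t ht' => ht t ?_ (ht'.2.trans hs11.le)) heq
    rw [abs_lt]
    constructor <;> linarith [ht'.1, ht'.2]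
  rcases hs0.eq_or_lt with h | h
  · -- `s0 = 0`
    have hg0 : g s0 = 0 := by rw [← h, g0]
    rcases hs1.eq_or_lt with h' | h'
    · rw [h', hg0] at heq
      exact hH.h4 heq
    · obtain ⟨r, s, hr, hrs, hs1', he⟩ := keyT h' 0 (by linarith)
      exact hH.h2 r s (by exact_mod_cast hr) hrs hs1' (by rw [he, hg0])
  · rcases hs1.eq_or_lt with h' | h'
    · obtain ⟨p, q, hp, hpq, hq, he⟩ := keyS h 1 (by linarith)
      exact hH.h3 p q hp hpq (by exact_mod_cast hq) (by rw [he, ← heq, h'])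
    · obtain ⟨p, q, hp, hpq, hq, he⟩ := keyS h (s0 + u / 2) (by linarith)
      obtain ⟨r, s, hr, hrs, hs1', he'⟩ := keyT h' (s0 + u / 2) (by linarith)
      exact hH.h1 p q r s hp hpq (by exact_mod_cast hq.trans hr) hrs hs1' (by rw [he, he'])

/-- Existence of local extrema. -/
theorem exists_extr {g : ℝ → ℝ} (hg : Continuous g) (hH : Half g) (hH' : Half (-g)) {p q : ℚ}
    (hp : 0 < p) (hpq : p < q) (hq : q < 1) :
    ∃ s ∈ Ioo (p : ℝ) q, IsLocalMax g s ∨ IsLocalMin g s := by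
  have hpq' : (p : ℝ) ≤ q := by exact_mod_cast hpq.le
  have hni : ¬ InjOn g (Icc (p : ℝ) q) := by
    intro hinj
    rcases hg.continuousOn.strictMonoOn_of_injOn_Icc' hpq' hinj with h | h
    · exact hH.h5 p q hp hpq hq h
    · exact hH'.h5 p q hp hpq hq fun x hx y hy hxy => neg_lt_neg (h hx hy hxy)
  unfold InjOn at hni
  push Not at hni
  obtain ⟨x, hx, y, hy, hxy, hne⟩ := hni
  have key : ∀ x ∈ Icc (p : ℝ) q, ∀ y ∈ Icc (p : ℝ) q, x < y → g x = g y →
      ∃ s ∈ Ioo (p : ℝ) q, IsLocalMax g s ∨ IsLocalMin g s := by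
    intro x hx y hy hlt he
    obtain ⟨s, hs, hext⟩ := exists_isLocalExtr_Ioo hlt hg.continuousOn he
    refine ⟨s, ⟨lt_of_le_of_lt hx.1 hs.1, lt_of_lt_of_le hs.2 hy.2⟩, ?_⟩
    rcases hext with h | h
    · exact Or.inr h
    · exact Or.inl h
  rcases lt_or_gt_of_ne hne with h | h
  · exact key x hx y hy h hxy
  · exact key y hy x hx h hxy.symm

theorem two_max {g : ℝ → ℝ} (hg : Continuous g) (hH : Half g) {s t : ℝ} (hs : 0 < s) (hst : s < t)
    (ht : t < 1) (hms : IsLocalMax g s) (hmt : IsLocalMax g t) (he : g s = g t) : False := by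
  obtain ⟨ε, hε, h1⟩ := Metric.eventually_nhds_iff.mp hms
  obtain ⟨ε', hε', h2⟩ := Metric.eventually_nhds_iff.mp hmt
  obtain ⟨p, hp1, hp2⟩ := exists_rat_btwn (show max 0 (s - ε) < s from max_lt hs (by linarith))
  obtain ⟨q, hq1, hq2⟩ := exists_rat_btwn (show s < min ((s + t) / 2) (s + ε) from
    lt_min (by linarith) (by linarith))
  obtain ⟨r, hr1, hr2⟩ := exists_rat_btwn (show max ((s + t) / 2) (t - ε') < t from
    max_lt (by linarith) (by linarith))
  obtain ⟨w, hw1, hw2⟩ := exists_rat_btwn (show t < min 1 (t + ε') from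
    lt_min ht (by linarith))
  have a1 : (0 : ℝ) < p := lt_of_le_of_lt (le_max_left _ _) hp1
  have a2 : s - ε < p := lt_of_le_of_lt (le_max_right _ _) hp1
  have a3 : (q : ℝ) < (s + t) / 2 := lt_of_lt_of_le hq2 (min_le_left _ _)
  have a4 : (q : ℝ) < s + ε := lt_of_lt_of_le hq2 (min_le_right _ _)
  have a5 : (s + t) / 2 < r := lt_of_le_of_lt (le_max_left _ _) hr1
  have a6 : t - ε' < r := lt_of_le_of_lt (le_max_right _ _) hr1
  have a7 : (w : ℝ) < 1 := lt_of_lt_of_le hw2 (min_le_left _ _)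
  have a8 : (w : ℝ) < t + ε' := lt_of_lt_of_le hw2 (min_le_right _ _)
  have e1 : Ms g p q = g s := by
    refine Ms_eq hg ⟨hp2.le, hq1.le⟩ (fun x hx => h1 ?_) rfl
    rw [Real.dist_eq, abs_lt]
    constructor <;> linarith [hx.1, hx.2]
  have e2 : Ms g r w = g t := by
    refine Ms_eq hg ⟨hr2.le, hw1.le⟩ (fun x hx => h2 ?_) rfl
    rw [Real.dist_eq, abs_lt]
    constructor <;> linarith [hx.1, hx.2]
  exact hH.h1' p q r w (by exact_mod_cast a1) (by exact_mod_cast hp2.trans hq1)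
    (by exact_mod_cast a3.trans a5) (by exact_mod_cast hr2.trans hw1) (by exact_mod_cast a7)
    (by rw [e1, e2, he])

theorem not_periodic {g : ℝ → ℝ} (hg : Continuous g) (hH : Half g) (hH' : Half (-g)) {u : ℝ}
    (hu0 : 0 < u) (hu1 : u < 1) : ∃ s, 0 ≤ s ∧ s + u ≤ 1 ∧ g (s + u) ≠ g s := by
  by_contra hcon
  push Not at hcon
  obtain ⟨p, hp1, hp2⟩ := exists_rat_btwn (show (0 : ℝ) < (1 - u) / 2 by linarith)
  obtain ⟨q, hq1, hq2⟩ := exists_rat_btwn (show (1 - u) / 2 < 1 - u by linarith)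
  obtain ⟨s, hs, hext⟩ := exists_extr hg hH hH' (p := p) (q := q) (by exact_mod_cast hp1)
    (by exact_mod_cast hp2.trans hq1) (by
      have : (q : ℝ) < 1 := by linarith
      exact_mod_cast this)
  have hs0 : 0 < s := hp1.trans hs.1
  have hs1 : s < 1 - u := hs.2.trans hq2
  have hev : (fun x => g (x - u)) =ᶠ[𝓝 (s + u)] g := by
    have hmem : Ioo u 1 ∈ 𝓝 (s + u) := Ioo_mem_nhds (by linarith) (by linarith)
    filter_upwards [hmem] with x hx
    have := hcon (x - u) (by linarith [hx.1]) (by linarith [hx.2])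
    rw [show x - u + u = x by ring] at this
    exact this.symm
  have htend : Tendsto (fun x => x - u) (𝓝 (s + u)) (𝓝 s) := by
    have : Tendsto (fun x => x - u) (𝓝 (s + u)) (𝓝 (s + u - u)) :=
      (continuous_id.sub continuous_const).tendsto _
    rwa [show s + u - u = s by ring] at this
  have hsu : g (s + u) = g s := hcon s hs0.le (by linarith)
  rcases hext with h | h
  · have h' : IsLocalMax g (s + u) := by
      have h2 : ∀ᶠ x in 𝓝 (s + u), g (x - u) ≤ g s := htend.eventually h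
      filter_upwards [h2, hev] with x hx he
      rw [hsu, ← he]; exact hx
    exact two_max hg hH hs0 (by linarith) (by linarith) h h' hsu.symm
  · have h' : IsLocalMin g (s + u) := by
      have h2 : ∀ᶠ x in 𝓝 (s + u), g s ≤ g (x - u) := htend.eventually h
      filter_upwards [h2, hev] with x hx he
      rw [hsu, ← he]; exact hx
    refine two_max (g := -g) hg.neg hH' hs0 (show s < s + u by linarith) (by linarith) ?_ ?_ ?_
    · exact h.neg
    · exact h'.neg
    · simp [hsu]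

/-- Opposite signs give an interior point of the span set. -/
theorem interior_of_signs {g : ℝ → ℝ} (hg : Continuous g) {u s1 s2 : ℝ} (hu0 : 0 < u)
    (hu1 : u < 1) (h1 : 0 ≤ s1) (h2 : 0 ≤ s2) (hneg : g (s1 + u) < g s1)
    (hpos : g s2 < g (s2 + u)) (h1' : s1 + u ≤ 1) (h2' : s2 + u ≤ 1) :
    u ∈ interior (SpR g) := by
  rw [mem_interior_iff_mem_nhds]
  have c1 : Continuous fun v : ℝ => g (min s1 (1 - v) + v) - g (min s1 (1 - v)) := by fun_prop
  have c2 : Continuous fun v : ℝ => g (min s2 (1 - v) + v) - g (min s2 (1 - v)) := by fun_prop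
  have e1 : min s1 (1 - u) = s1 := min_eq_left (by linarith)
  have e2 : min s2 (1 - u) = s2 := min_eq_left (by linarith)
  have t1 : ∀ᶠ v in 𝓝 u, g (min s1 (1 - v) + v) - g (min s1 (1 - v)) < 0 := by
    refine c1.continuousAt.eventually_lt continuousAt_const ?_
    show g (min s1 (1 - u) + u) - g (min s1 (1 - u)) < 0
    rw [e1]; linarith
  have t2 : ∀ᶠ v in 𝓝 u, 0 < g (min s2 (1 - v) + v) - g (min s2 (1 - v)) := by
    refine continuousAt_const.eventually_lt c2.continuousAt ?_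
    show 0 < g (min s2 (1 - u) + u) - g (min s2 (1 - u))
    rw [e2]; linarith
  filter_upwards [t1, t2, Ioo_mem_nhds hu0 hu1] with v hv1 hv2 hv
  -- intermediate value
  have hc : ContinuousOn (fun s => g (s + v) - g s) (uIcc (min s1 (1 - v)) (min s2 (1 - v))) := by
    fun_prop
  have hiv := intermediate_value_uIcc hc
  have h0 : (0 : ℝ) ∈ uIcc (g (min s1 (1 - v) + v) - g (min s1 (1 - v)))
      (g (min s2 (1 - v) + v) - g (min s2 (1 - v))) := by
    rw [mem_uIcc]
    exact Or.inl ⟨hv1.le, hv2.le⟩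
  obtain ⟨s, hs, hs'⟩ := hiv h0
  have hlo : 0 ≤ s := by
    have h3 : 0 ≤ min s1 (1 - v) := le_min h1 (by linarith [hv.2])
    have h4 : 0 ≤ min s2 (1 - v) := le_min h2 (by linarith [hv.2])
    exact (le_min h3 h4).trans hs.1
  have hhi : s ≤ 1 - v := hs.2.trans (max_le (min_le_right _ _) (min_le_right _ _))
  have hs'' : g (s + v) - g s = 0 := hs'
  exact ⟨hv.1.le, s, hlo, by linarith, by linarith⟩

/-- Near `0` the span set is full. -/
theorem near_zero {g : ℝ → ℝ} (hg : Continuous g) (hH : Half g) (hH' : Half (-g)) :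
    (0 : ℝ) ∈ closure (interior (SpR g)) := by
  obtain ⟨s, hs, hext⟩ := exists_extr hg hH hH' (p := 1 / 3) (q := 2 / 3) (by norm_num)
    (by norm_num) (by norm_num)
  have hs0 : 0 < s := lt_trans (by norm_num) hs.1
  have hs1 : s < 1 := hs.2.trans (by norm_num)
  have key : ∀ g : ℝ → ℝ, Continuous g → IsLocalMax g s → ∃ η > 0, Ioo 0 η ⊆ SpR g := by
    intro g hg hmax
    obtain ⟨ε, hε, h1⟩ := Metric.eventually_nhds_iff.mp hmax
    refine ⟨min ε (min s (1 - s)), lt_min hε (lt_min hs0 (by linarith)), fun u hu => ?_⟩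
    have u1 : u < ε := lt_of_lt_of_le hu.2 (min_le_left _ _)
    have u2 : u < s := lt_of_lt_of_le hu.2 ((min_le_right _ _).trans (min_le_left _ _))
    have u3 : u < 1 - s := lt_of_lt_of_le hu.2 ((min_le_right _ _).trans (min_le_right _ _))
    have a1 : g (s + u) ≤ g s := h1 (by
      rw [Real.dist_eq, show s + u - s = u by ring, abs_of_pos hu.1]; exact u1)
    have a2 : g (s - u) ≤ g s := h1 (by
      rw [Real.dist_eq, show s - u - s = -u by ring, abs_neg, abs_of_pos hu.1]; exact u1)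
    have hc : ContinuousOn (fun x => g (x + u) - g x) (uIcc s (s - u)) := by fun_prop
    have hiv := intermediate_value_uIcc hc
    have h0 : (0 : ℝ) ∈ uIcc (g (s + u) - g s) (g (s - u + u) - g (s - u)) := by
      rw [mem_uIcc]
      left
      rw [show s - u + u = s by ring]
      constructor <;> linarith
    obtain ⟨x, hx, hx'⟩ := hiv h0
    rw [uIcc_of_ge (by linarith [hu.1])] at hx
    have hx'' : g (x + u) - g x = 0 := hx'
    exact ⟨hu.1.le, x, by linarith [hx.1], by linarith [hx.2], by linarith⟩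
  have hneg : SpR (-g) = SpR g := by
    ext u
    simp [SpR]
  obtain ⟨η, hη, hsub⟩ : ∃ η > 0, Ioo 0 η ⊆ SpR g := by
    rcases hext with h | h
    · exact key g hg h
    · have := key (-g) hg.neg h.neg
      rwa [hneg] at this
  have h2 : Ioo 0 η ⊆ interior (SpR g) := interior_maximal hsub isOpen_Ioo
  have h3 : (0 : ℝ) ∈ closure (Ioo 0 η) := by
    rw [closure_Ioo hη.ne]
    exact ⟨le_rfl, hη.le⟩
  exact closure_mono h2 h3

theorem SpR_closed {g : ℝ → ℝ} (hg : Continuous g) : IsClosed (SpR g) := by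
  have h1 : IsCompact (Icc (0 : ℝ) 1 ×ˢ Icc (0 : ℝ) 1 ∩
      {z : ℝ × ℝ | z.2 + z.1 ≤ 1 ∧ g (z.2 + z.1) = g z.2}) := by
    refine (isCompact_Icc.prod isCompact_Icc).inter_right ?_
    exact (isClosed_le (f := fun z : ℝ × ℝ => z.2 + z.1) (by fun_prop) continuous_const).inter
      (isClosed_eq (f := fun z : ℝ × ℝ => g (z.2 + z.1)) (g := fun z : ℝ × ℝ => g z.2)
        (by fun_prop) (by fun_prop))
  have h2 : SpR g = Prod.fst '' (Icc (0 : ℝ) 1 ×ˢ Icc (0 : ℝ) 1 ∩
      {z : ℝ × ℝ | z.2 + z.1 ≤ 1 ∧ g (z.2 + z.1) = g z.2}) := by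
    ext u
    constructor
    · rintro ⟨hu, s, hs, hsu, he⟩
      exact ⟨(u, s), ⟨⟨⟨hu, by show u ≤ 1; linarith⟩, ⟨hs, by show s ≤ 1; linarith⟩⟩, hsu, he⟩, rfl⟩
    · rintro ⟨⟨u', s⟩, ⟨⟨hu, hs⟩, hsu, he⟩, rfl⟩
      exact ⟨hu.1, s, hs.1, hsu, he⟩
  rw [h2]
  exact (h1.image continuous_fst).isClosed

/-- The deterministic theorem. -/
theorem regular {g : ℝ → ℝ} (hg : Continuous g) (g0 : g 0 = 0) (hH : Half g) (hH' : Half (-g)) :
    SpR g = closure (interior (SpR g)) := by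
  refine Subset.antisymm (fun u hu => ?_) ?_
  swap
  · exact (closure_mono interior_subset).trans (SpR_closed hg).closure_subset
  obtain ⟨hu0, s0, hs0, hs1, heq⟩ := hu
  rcases hu0.eq_or_lt with h | hu0
  · rw [← h]; exact near_zero hg hH hH'
  have hu1 : u < 1 := by
    rcases (show u ≤ 1 by linarith).lt_or_eq with h | h
    · exact h
    · exfalso
      have : s0 = 0 := by linarith
      rw [this, h, g0, zero_add] at heq
      exact hH.h4 heq
  by_contra hcl
  rw [Metric.mem_closure_iff] at hcl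
  push Not at hcl
  obtain ⟨ε, hε, hcl⟩ := hcl
  -- no interior points near `u`
  have hno : ∀ v, |v - u| < ε → v ∉ interior (SpR g) := by
    intro v hv hmem
    have := hcl v hmem
    rw [Real.dist_eq, abs_sub_comm] at this
    linarith
  obtain ⟨s1, hs10, hs11, hne⟩ := not_periodic hg hH hH' hu0 hu1
  have key : ∀ g : ℝ → ℝ, Continuous g → Half g → g 0 = 0 → g (s0 + u) = g s0 →
      (∀ v, |v - u| < ε → v ∉ interior (SpR g)) → g s1 < g (s1 + u) → False := by
    intro g hg hH g0 heq hno hlt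
    have c1 : Continuous fun v : ℝ => g (min s1 (1 - v) + v) - g (min s1 (1 - v)) := by fun_prop
    have e1 : min s1 (1 - u) = s1 := min_eq_left (by linarith)
    have t1 : ∀ᶠ v in 𝓝 u, 0 < g (min s1 (1 - v) + v) - g (min s1 (1 - v)) := by
      refine continuousAt_const.eventually_lt c1.continuousAt ?_
      show 0 < g (min s1 (1 - u) + u) - g (min s1 (1 - u))
      rw [e1]; linarith
    obtain ⟨δ, hδ, hball⟩ := Metric.eventually_nhds_iff.mp
      (t1.and (Ioo_mem_nhds hu0 hu1))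
    refine no_touch hg hH g0 (δ := min ε δ) (lt_min hε hδ) hs0 hs1 hu0 heq ?_
    intro v hv s hs hsv
    have hvε : |v - u| < ε := lt_of_lt_of_le hv (min_le_left _ _)
    have hvδ : |v - u| < δ := lt_of_lt_of_le hv (min_le_right _ _)
    obtain ⟨hb1, hb2⟩ := hball (y := v) (by rw [Real.dist_eq]; exact hvδ)
    by_contra hcon
    push Not at hcon
    refine hno v hvε (interior_of_signs hg hb2.1 hb2.2 hs (s2 := min s1 (1 - v)) ?_ hcon ?_ hsv ?_)
    · exact le_min hs10 (by linarith [hb2.2])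
    · linarith
    · linarith [min_le_right s1 (1 - v)]
  rcases lt_or_gt_of_ne hne with h | h
  · have hneg : SpR (-g) = SpR g := by
      ext u
      simp [SpR]
    refine key (-g) hg.neg hH' (by simp [g0]) (by simp [heq]) (by rw [hneg]; exact hno) ?_
    exact neg_lt_neg h
  · exact key g hg hH g0 heq hno h

end

end Pool.Agent.Q210.SP
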