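import Mathlib
import Pool.Agent.Q210.SP.Det

/-!
# Almost sure properties of Brownian paths
-/

open Set Filter Topology MeasureTheory ProbabilityTheory
open scoped ENNReal NNReal

namespace Pool.Agent.Q210.SP

noncomputable section

variable {Ω : Type*} {mΩ : MeasurableSpace Ω} {P : Measure Ω} {B : ℝ≥0 → Ω → ℝ}

/-- Independent real variables, one of them without atoms, are almost surely different. -/
theorem ne_of_indep [IsProbabilityMeasure P] {Y Z : Ω → ℝ} (hY : AEMeasurable Y P)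
    (hZ : AEMeasurable Z P) (hI : IndepFun Y Z P) (hat : ∀ c : ℝ, P {ω | Y ω = c} = 0) :
    P {ω | Y ω = Z ω} = 0 := by
  have hmap := (indepFun_iff_map_prod_eq_prod_map_map hY hZ).mp hI
  have hms : MeasurableSet {z : ℝ × ℝ | z.1 = z.2} := measurableSet_eq_fun measurable_fst
    measurable_snd
  have h1 : P {ω | Y ω = Z ω} = (P.map fun ω => (Y ω, Z ω)) {z : ℝ × ℝ | z.1 = z.2} := by
    rw [Measure.map_apply_of_aemeasurable (hY.prodMk hZ) hms]
    rfl
  have : IsProbabilityMeasure (P.map Y) := Measure.isProbabilityMeasure_map hY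
  have : IsProbabilityMeasure (P.map Z) := Measure.isProbabilityMeasure_map hZ
  rw [h1, hmap, Measure.prod_apply_symm hms]
  have h2 : ∀ z : ℝ, (P.map Y) ((fun y => (y, z)) ⁻¹' {z : ℝ × ℝ | z.1 = z.2}) = 0 := by
    intro z
    have h3 : ((fun y => (y, z)) ⁻¹' {z : ℝ × ℝ | z.1 = z.2}) = {z} := by
      ext y; simp
    rw [h3, Measure.map_apply_of_aemeasurable hY (measurableSet_singleton z)]
    exact hat z
  simp_rw [h2]
  simp

theorem no_atoms_incr (hB : IsBrownianReal B P) {q r : ℝ≥0} (h : q < r) (c : ℝ) :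
    P {ω | B r ω - B q ω = c} = 0 := by
  have hl := hB.hasLaw_sub r q
  have h1 : P {ω | B r ω - B q ω = c} = (P.map (B r - B q)) {c} := by
    rw [Measure.map_apply_of_aemeasurable hl.aemeasurable (measurableSet_singleton c)]
    rfl
  rw [h1, hl.map_eq]
  have hv : nndist r.1 q.1 ≠ 0 := by
    rw [Ne, nndist_eq_zero]
    exact fun he => h.ne' (Subtype.ext he)
  have := nullSingletonClass_gaussianReal (μ := 0) hv
  exact measure_singleton c

/-- The post-process. -/
def post (B : ℝ≥0 → Ω → ℝ) (a : ℝ≥0) (ω : Ω) : ℝ≥0 → ℝ := fun t => B (a + t) ω - B a ω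

/-- The pre-process. -/
def pre (B : ℝ≥0 → Ω → ℝ) (a : ℝ≥0) (ω : Ω) : Set.Iic a → ℝ := fun t => B t ω

theorem post_ae (hB : IsBrownianReal B P) (a t : ℝ≥0) : AEMeasurable (fun ω => post B a ω t) P :=
  (hB.aemeasurable (a + t)).sub (hB.aemeasurable a)

theorem pre_ae (hB : IsBrownianReal B P) (a : ℝ≥0) (t : Set.Iic a) :
    AEMeasurable (fun ω => pre B a ω t) P := hB.aemeasurable t

theorem indep_post (hB : IsBrownianReal B P) (a : ℝ≥0) :
    IndepFun (post B a) (pre B a) P := hB.indepFun_shift a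

theorem no_atoms_pre (hB : IsBrownianReal B P) {q r : ℝ≥0} (h : q < r)
    {Φ : (Set.Iic q → ℝ) → ℝ} (hΦ : Measurable Φ) (hΦ' : AEMeasurable (fun ω => Φ (pre B q ω)) P)
    (c : ℝ) : P {ω | Φ (pre B q ω) - B r ω = c} = 0 := by
  have := hB.isGaussianProcess.isProbabilityMeasure
  have hm1 : Measurable fun z : ℝ≥0 → ℝ => z (r - q) := measurable_pi_apply _
  have hm2 : Measurable fun y : Set.Iic q → ℝ => y ⟨q, le_refl q⟩ := measurable_pi_apply _
  have hI := (indep_post hB q).comp (φ := fun z : ℝ≥0 → ℝ => z (r - q))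
    (ψ := fun y : Set.Iic q → ℝ => Φ y - y ⟨q, le_refl q⟩ - c) hm1
    ((hΦ.sub hm2).sub_const c)
  have h1 := ne_of_indep
    (Y := (fun z : ℝ≥0 → ℝ => z (r - q)) ∘ post B q)
    (Z := (fun y : Set.Iic q → ℝ => Φ y - y ⟨q, le_refl q⟩ - c) ∘ pre B q)
    (post_ae hB q (r - q))
    ((hΦ'.sub (hB.aemeasurable q)).sub_const c) hI ?_
  · refine measure_mono_null (fun ω hω => ?_) h1
    have hω' : Φ (pre B q ω) - B r ω = c := hω
    show B (q + (r - q)) ω - B q ω = Φ (pre B q ω) - B q ω - c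
    rw [add_tsub_cancel_of_le h.le]
    linarith
  · intro d
    refine measure_mono_null (fun ω hω => ?_) (no_atoms_incr hB h d)
    have hω' : B (q + (r - q)) ω - B q ω = d := hω
    rwa [add_tsub_cancel_of_le h.le] at hω'

/-- The key independence statement. -/
theorem key (hB : IsBrownianReal B P) {q r : ℝ≥0} (h : q < r)
    {Φ : (Set.Iic q → ℝ) → ℝ} (hΦ : Measurable Φ) (hΦ' : AEMeasurable (fun ω => Φ (pre B q ω)) P)
    {Ψ : (ℝ≥0 → ℝ) → ℝ} (hΨ : Measurable Ψ) (hΨ' : AEMeasurable (fun ω => Ψ (post B r ω)) P) :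
    P {ω | Φ (pre B q ω) - B r ω = Ψ (post B r ω)} = 0 := by
  have := hB.isGaussianProcess.isProbabilityMeasure
  have hm2 : Measurable fun y : Set.Iic r → ℝ => y ⟨r, le_refl r⟩ := measurable_pi_apply _
  have hm : Measurable fun y : Set.Iic r → ℝ =>
      Φ (fun t : Set.Iic q => y ⟨t, t.2.trans h.le⟩) - y ⟨r, le_refl r⟩ := by
    refine (hΦ.comp ?_).sub hm2
    exact measurable_pi_lambda _ fun t => measurable_pi_apply _
  have hI := (indep_post hB r).symm.comp (φ := fun y : Set.Iic r → ℝ =>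
      Φ (fun t : Set.Iic q => y ⟨t, t.2.trans h.le⟩) - y ⟨r, le_refl r⟩) (ψ := Ψ) hm hΨ
  exact ne_of_indep (Y := (fun y : Set.Iic r → ℝ =>
      Φ (fun t : Set.Iic q => y ⟨t, t.2.trans h.le⟩) - y ⟨r, le_refl r⟩) ∘ pre B r)
    (Z := Ψ ∘ post B r) (hΦ'.sub (hB.aemeasurable r)) hΨ' hI
    fun c => no_atoms_pre hB h hΦ hΦ' c

/-- The path as a function on the line. -/
def path (B : ℝ≥0 → Ω → ℝ) (ω : Ω) : ℝ → ℝ := fun t => B t.toNNReal ω

theorem path_cont {ω : Ω} (h : Continuous (B · ω)) : Continuous (path B ω) :=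
  h.comp continuous_real_toNNReal

/-- The time with clamp. -/
def tm (p q : ℚ) (x : ℚ) : ℝ≥0 := (max (p : ℝ) (min (x : ℝ) q)).toNNReal

theorem tm_le {p q : ℚ} (h : p ≤ q) (x : ℚ) : tm p q x ≤ (q : ℝ).toNNReal :=
  Real.toNNReal_le_toNNReal (clamp_mem (by exact_mod_cast h) (x : ℝ)).2

theorem le_tm (p q : ℚ) (x : ℚ) : (p : ℝ).toNNReal ≤ tm p q x :=
  Real.toNNReal_le_toNNReal (le_max_left _ _)

/-- Supremum over `[p,q]` as a function of the path up to time `q`. -/
def PhiM {p q : ℚ} (h : p ≤ q) (y : Set.Iic ((q : ℝ).toNNReal) → ℝ) : ℝ :=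
  ⨆ x : ℚ, y ⟨tm p q x, tm_le h x⟩

theorem PhiM_meas {p q : ℚ} (h : p ≤ q) : Measurable (PhiM h) :=
  Measurable.iSup fun _ => measurable_pi_apply _

theorem PhiM_ae (hB : IsBrownianReal B P) {p q : ℚ} (h : p ≤ q) :
    AEMeasurable (fun ω => PhiM h (pre B _ ω)) P :=
  AEMeasurable.iSup fun x => pre_ae hB _ ⟨tm p q x, tm_le h x⟩

theorem Ms_pre {p q : ℚ} (h : p ≤ q) (ω : Ω) :
    Ms (path B ω) p q = PhiM h (pre B _ ω) := rfl

/-- Supremum over `[r,s]` of the increments after `r`. -/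
def PsiM (r s : ℚ) (z : ℝ≥0 → ℝ) : ℝ := ⨆ x : ℚ, z (tm r s x - (r : ℝ).toNNReal)

theorem PsiM_meas (r s : ℚ) : Measurable (PsiM r s) :=
  Measurable.iSup fun _ => measurable_pi_apply _

theorem PsiM_ae (hB : IsBrownianReal B P) (r s : ℚ) (a : ℝ≥0) :
    AEMeasurable (fun ω => PsiM r s (post B a ω)) P :=
  AEMeasurable.iSup fun _ => post_ae hB _ _

theorem Ms_post {r s : ℚ} (h : r ≤ s) {ω : Ω} (hc : Continuous (B · ω)) :
    Ms (path B ω) r s = path B ω r + PsiM r s (post B (r : ℝ).toNNReal ω) := by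
  have hcont := path_cont hc
  have hrs : (r : ℝ) ≤ s := by exact_mod_cast h
  have hbd : BddAbove (range fun x : ℚ => path B ω (max (r : ℝ) (min (x : ℝ) s))) := by
    obtain ⟨C, hC⟩ := (isCompact_Icc (a := (r : ℝ)) (b := s)).bddAbove_image hcont.continuousOn
    refine ⟨C, ?_⟩
    rintro _ ⟨x, rfl⟩
    exact hC ⟨_, clamp_mem hrs x, rfl⟩
  have e : ∀ x : ℚ, post B (r : ℝ).toNNReal ω (tm r s x - (r : ℝ).toNNReal) =
      path B ω (max (r : ℝ) (min (x : ℝ) s)) - path B ω r := by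
    intro x
    unfold post path
    rw [add_tsub_cancel_of_le (le_tm r s x)]
    rfl
  have e2 : PsiM r s (post B (r : ℝ).toNNReal ω) =
      ⨆ x : ℚ, (path B ω (max (r : ℝ) (min (x : ℝ) s)) - path B ω r) := by
    unfold PsiM
    simp_rw [e]
  have h3 := (OrderIso.subRight (path B ω r)).map_ciSup hbd
  have h4 : (⨆ x : ℚ, path B ω (max (r : ℝ) (min (x : ℝ) s))) - path B ω r =
      ⨆ x : ℚ, (path B ω (max (r : ℝ) (min (x : ℝ) s)) - path B ω r) := h3
  rw [e2, ← h4]
  unfold Ms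
  ring

theorem path_neg (ω : Ω) : path (-B) ω = -(path B ω) := rfl

theorem post_neg (a : ℝ≥0) (ω : Ω) : post (-B) a ω = -(post B a ω) := by
  funext t
  show -B (a + t) ω - -B a ω = -(B (a + t) ω - B a ω)
  ring

theorem mI_post {r s : ℚ} (h : r ≤ s) {ω : Ω} (hc : Continuous (B · ω)) :
    mI (path B ω) r s = path B ω r - PsiM r s (-(post B (r : ℝ).toNNReal ω)) := by
  have h1 := Ms_post (B := -B) h (ω := ω) (by
    have : Continuous fun t => -(B t ω) := hc.neg
    exact this)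
  rw [path_neg, post_neg] at h1
  unfold mI
  rw [h1]
  simp only [Pi.neg_apply]
  ring

theorem PsiMneg_meas (r s : ℚ) : Measurable fun z : ℝ≥0 → ℝ => -(PsiM r s (-z)) :=
  ((PsiM_meas r s).comp measurable_neg).neg

theorem PsiMneg_ae (hB : IsBrownianReal B P) (r s : ℚ) (a : ℝ≥0) :
    AEMeasurable (fun ω => -(PsiM r s (-(post B a ω)))) P :=
  (AEMeasurable.iSup fun _ => (post_ae hB _ _).neg).neg

theorem toNN_lt {q r : ℚ} (hq : 0 < r) (h : q < r) : (q : ℝ).toNNReal < (r : ℝ).toNNReal := by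
  rw [Real.toNNReal_lt_toNNReal_iff]
  · exact_mod_cast h
  · exact_mod_cast hq

/-- Increments are positive with probability at most one half. -/
theorem half_le (hB : IsBrownianReal B P) (s t : ℝ≥0) :
    P {ω | 0 < B t ω - B s ω} ≤ 2⁻¹ := by
  have := hB.isGaussianProcess.isProbabilityMeasure
  obtain ⟨v, hl⟩ : ∃ v, HasLaw (B t - B s) (gaussianReal 0 v) P := ⟨_, hB.hasLaw_sub t s⟩
  have h1 : P {ω | 0 < B t ω - B s ω} = gaussianReal 0 v (Ioi 0) := by
    rw [← hl.map_eq, Measure.map_apply_of_aemeasurable hl.aemeasurable measurableSet_Ioi]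
    rfl
  have h2 : gaussianReal 0 v (Ioi 0) = gaussianReal 0 v (Iio 0) := by
    have h3 := gaussianReal_map_neg (μ := 0) (v := v)
    rw [neg_zero] at h3
    conv_lhs => rw [← h3]
    rw [Measure.map_apply measurable_neg measurableSet_Ioi]
    congr 1
    ext x
    simp
  have h4 : gaussianReal 0 v (Ioi 0) + gaussianReal 0 v (Iio 0) ≤ 1 := by
    rw [← measure_union _ measurableSet_Iio]
    · exact prob_le_one
    · rw [Set.disjoint_left]
      intro x hx hx'
      exact lt_asymm (show (0 : ℝ) < x from hx) hx'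
  rw [h1]
  rw [← h2, ← two_mul] at h4
  rw [ENNReal.le_inv_iff_mul_le, mul_comm]
  exact h4

theorem not_strictMono (hB : IsBrownianReal B P) {p q : ℚ} (hp : 0 < p) (hpq : p < q) :
    ∀ᵐ ω ∂P, ¬ StrictMonoOn (path B ω) (Icc (p : ℝ) q) := by
  rw [ae_iff]
  simp only [not_not]
  have key : ∀ n : ℕ, P {ω | StrictMonoOn (path B ω) (Icc (p : ℝ) q)} ≤ (2⁻¹ : ℝ≥0∞) ^ (n + 1) := by
    intro n
    set h : ℝ := ((q : ℝ) - p) / (n + 1) with hh
    have hpq' : (p : ℝ) < q := by exact_mod_cast hpq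
    have hh0 : 0 < h := div_pos (by linarith) (by positivity)
    let t : ℕ → ℝ≥0 := fun k => ((p : ℝ) + k * h).toNNReal
    have ht : Monotone t := by
      intro a b hab
      refine Real.toNNReal_le_toNNReal ?_
      have : (a : ℝ) ≤ b := by exact_mod_cast hab
      nlinarith
    have hI := hB.hasIndepIncrements.nat ht
    have h1 := iIndepFun.measure_inter_preimage_eq_mul hI (Finset.range (n + 1))
      (sets := fun _ => Ioi (0 : ℝ)) (fun _ _ => measurableSet_Ioi)
    have hsub : {ω | StrictMonoOn (path B ω) (Icc (p : ℝ) q)} ⊆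
        ⋂ i ∈ Finset.range (n + 1), (fun ω => B (t (i + 1)) ω - B (t i) ω) ⁻¹' Ioi (0 : ℝ) := by
      intro ω hω
      simp only [mem_iInter]
      intro i hi
      have hi' : i + 1 ≤ n + 1 := Finset.mem_range.mp hi
      have hi'' : ((i : ℝ) + 1) ≤ n + 1 := by exact_mod_cast hi'
      have hin : ∀ k : ℕ, (k : ℝ) ≤ n + 1 → (p : ℝ) + k * h ∈ Icc (p : ℝ) q := by
        intro k hk
        constructor
        · have : 0 ≤ (k : ℝ) * h := by positivity
          linarith
        · have h5 : (k : ℝ) * h ≤ (n + 1) * h := mul_le_mul_of_nonneg_right hk hh0.le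
          have h6 : ((n : ℝ) + 1) * h = q - p := by
            rw [hh]; field_simp
          linarith
      have h7 := hω (hin i (by linarith)) (hin (i + 1) (by push_cast; exact hi''))
        (by push_cast; linarith)
      show 0 < B (t (i + 1)) ω - B (t i) ω
      have h8 : path B ω ((p : ℝ) + (i : ℕ) * h) < path B ω ((p : ℝ) + ((i + 1 : ℕ) : ℝ) * h) := h7
      exact sub_pos.mpr h8
    refine (measure_mono hsub).trans ?_
    rw [h1]
    calc ∏ i ∈ Finset.range (n + 1), P ((fun ω => B (t (i + 1)) ω - B (t i) ω) ⁻¹' Ioi (0 : ℝ))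
        ≤ ∏ _i ∈ Finset.range (n + 1), (2⁻¹ : ℝ≥0∞) :=
          Finset.prod_le_prod' fun i _ => half_le hB _ _
      _ = (2⁻¹ : ℝ≥0∞) ^ (n + 1) := by simp
  have hlim : Tendsto (fun n : ℕ => (2⁻¹ : ℝ≥0∞) ^ (n + 1)) atTop (𝓝 0) :=
    (tendsto_add_atTop_iff_nat 1).mpr
      (ENNReal.tendsto_pow_atTop_nhds_zero_of_lt_one (by rw [ENNReal.inv_lt_one]; norm_num))
  exact le_antisymm (ge_of_tendsto' hlim key) (zero_le)

theorem ae_half (hB : IsBrownianReal B P) : ∀ᵐ ω ∂P, Half (path B ω) := by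
  have A1 : ∀ᵐ ω ∂P, ∀ p q r s : ℚ, 0 < p → p < q → q < r → r < s → s < 1 →
      Ms (path B ω) p q ≠ mI (path B ω) r s := by
    simp only [ae_all_iff]
    intro p q r s hp hpq hqr hrs _
    have h1 := key hB (toNN_lt (hp.trans (hpq.trans hqr)) hqr) (PhiM_meas hpq.le) (PhiM_ae hB hpq.le)
      (PsiMneg_meas r s) (PsiMneg_ae hB r s _)
    filter_upwards [hB.cont, (measure_eq_zero_iff_ae_notMem.mp h1)] with ω hc hω he
    apply hω
    show PhiM hpq.le (pre B _ ω) - B (r : ℝ).toNNReal ω = -(PsiM r s (-(post B _ ω)))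
    rw [← Ms_pre hpq.le ω, he, mI_post hrs.le hc]
    unfold path
    ring
  have A2 : ∀ᵐ ω ∂P, ∀ p q r s : ℚ, 0 < p → p < q → q < r → r < s → s < 1 →
      Ms (path B ω) p q ≠ Ms (path B ω) r s := by
    simp only [ae_all_iff]
    intro p q r s hp hpq hqr hrs _
    have h1 := key hB (toNN_lt (hp.trans (hpq.trans hqr)) hqr) (PhiM_meas hpq.le) (PhiM_ae hB hpq.le)
      (PsiM_meas r s) (PsiM_ae hB r s _)
    filter_upwards [hB.cont, (measure_eq_zero_iff_ae_notMem.mp h1)] with ω hc hω he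
    apply hω
    show PhiM hpq.le (pre B _ ω) - B (r : ℝ).toNNReal ω = PsiM r s (post B _ ω)
    rw [← Ms_pre hpq.le ω, he, Ms_post hrs.le hc]
    unfold path
    ring
  have A3 : ∀ᵐ ω ∂P, ∀ r s : ℚ, 0 < r → r < s → s < 1 → mI (path B ω) r s ≠ 0 := by
    simp only [ae_all_iff]
    intro r s hr hrs _
    have h1 := key hB (q := 0) (r := (r : ℝ).toNNReal) (Φ := fun _ => 0) (by
      rw [Real.toNNReal_pos]; exact_mod_cast hr) measurable_const aemeasurable_const
      (PsiMneg_meas r s) (PsiMneg_ae hB r s _)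
    filter_upwards [hB.cont, (measure_eq_zero_iff_ae_notMem.mp h1)] with ω hc hω he
    apply hω
    show 0 - B (r : ℝ).toNNReal ω = -(PsiM r s (-(post B _ ω)))
    rw [mI_post hrs.le hc] at he
    unfold path at he
    linarith
  have A4 : ∀ᵐ ω ∂P, ∀ p q : ℚ, 0 < p → p < q → q < 1 → Ms (path B ω) p q ≠ path B ω 1 := by
    simp only [ae_all_iff]
    intro p q hp hpq hq
    have h1 := key hB (toNN_lt (r := 1) zero_lt_one hq) (PhiM_meas hpq.le) (PhiM_ae hB hpq.le)
      (Ψ := fun _ => 0) measurable_const aemeasurable_const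
    filter_upwards [(measure_eq_zero_iff_ae_notMem.mp h1)] with ω hω he
    apply hω
    show PhiM hpq.le (pre B _ ω) - B ((1 : ℚ) : ℝ).toNNReal ω = 0
    rw [← Ms_pre hpq.le ω, he]
    unfold path
    simp
  have A5 : ∀ᵐ ω ∂P, path B ω 1 ≠ 0 := by
    have h1 := key hB (q := 0) (r := 1) (Φ := fun _ => 0) zero_lt_one measurable_const aemeasurable_const
      (Ψ := fun _ => 0) measurable_const aemeasurable_const
    filter_upwards [(measure_eq_zero_iff_ae_notMem.mp h1)] with ω hω he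
    apply hω
    show 0 - B 1 ω = 0
    unfold path at he
    rw [Real.toNNReal_one] at he
    rw [he]; ring
  have A6 : ∀ᵐ ω ∂P, ∀ p q : ℚ, 0 < p → p < q → q < 1 →
      ¬ StrictMonoOn (path B ω) (Icc (p : ℝ) q) := by
    simp only [ae_all_iff]
    intro p q hp hpq _
    exact not_strictMono hB hp hpq
  filter_upwards [A1, A2, A3, A4, A5, A6] with ω h1 h2 h3 h4 h5 h6
  exact ⟨h1, h2, h3, h4, h5, h6⟩

end

end Pool.Agent.Q210.SP
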